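import Pool.Agent.Helper79.GT.St1

/-!
# Project GT (MP_c2d095_lc), module BES: the player who is behind and to move wins iff `XINS`
-/

set_option autoImplicit false

namespace Pool.Agent.Helper24.GT

open Pool.Agent.Helper19.SK Pool.Agent.Helper79.GS Pool.Agent.Helper79.GT

/-- Unfolding of `MWs` (situational superko). -/
private lemma mw_iff {P : Type} [Finite P] (A : Arena P) (H : Set (Bool × P)) (ps c : Bool) (b : P) :
    MWs A true H ps c b ↔ ((ps = true ∧ ahead A c b) ∨
      (ps = false ∧ ¬ MWs A true (insert (!c, b) H) true (!c) b) ∨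
      ∃ b', A.mv c b b' ∧ (!c, b') ∉ H ∧ ¬ MWs A true (insert (!c, b') H) false (!c) b') := by
  rw [MWs]
  simp only [exists_prop, okk, if_true]

private lemma ahead_not {P : Type} (A : Arena P) (c : Bool) (u : P) : ahead A (!c) u ↔ ¬ ahead A c u := by
  cases c <;> simp [ahead]

private lemma xin_iff {P : Type} (A : Arena P) (EX : Bool → P → Prop) (V : Set (Bool × P)) (c : Bool) (u : P) :
    XINS A EX V c u ↔ (EX c u ∨ Ess (GrS A EX V c (XkS A EX V c (mg A c u / 4)) u) u) := Iff.rfl

private lemma ncard_lt_aux {Q : Type} [Finite Q] (H : Set Q) (v w : Q) (hv : v ∉ H) :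
    ((insert w (insert v H))ᶜ).ncard < (Hᶜ).ncard := by
  refine Set.ncard_lt_ncard ?_ (Set.toFinite _)
  refine ⟨fun x hx hxH => hx (Or.inr (Or.inr hxH)), fun hcon => ?_⟩
  exact hcon (show v ∈ Hᶜ from hv) (Or.inr (Or.inl rfl))

private lemma c_ne (c : Bool) : c ≠ !c := by cases c <;> decide

/-- Module BES. -/
theorem hBES (hLVL : StLVL) (hXLS : StXLS) (hGEO : StGEO) (hGRS : StGRS) :
    Pool.Agent.Helper79.GT.StBES := by
  intro P _ A hS EX Cm H₁ hCl hEX c
  -- agreement is preserved by the insertion of situations of the component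
  have hag : ∀ (H : Set (Bool × P)) (s₀ : Bool) (v : P), v ∈ Cm →
      (∀ x, x ∉ Cm → ∀ s, ((s, x) ∈ H ↔ (s, x) ∈ H₁)) →
      (∀ x, x ∉ Cm → ∀ s, ((s, x) ∈ insert (s₀, v) H ↔ (s, x) ∈ H₁)) := by
    intro H s₀ v hv hH x hx s
    rw [Set.mem_insert_iff, ← hH x hx s]
    constructor
    · rintro (h | h)
      · have h2 : x = v := congrArg Prod.snd h
        exact absurd (h2 ▸ hv) hx
      · exact h
    · exact Or.inr
  have main : ∀ k : ℕ, ∀ n : ℕ, ∀ (u : P) (H : Set (Bool × P)) (ps : Bool), mg A c u / 4 = k →
      (Hᶜ).ncard = n → u ∈ Cm → (c, u) ∈ H → (∀ x, x ∉ Cm → ∀ s, ((s, x) ∈ H ↔ (s, x) ∈ H₁)) →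
      ¬ ahead A c u → (MWs A true H ps c u ↔ XINS A EX H c u) := by
    intro k
    induction k using Nat.strong_induction_on with
    | _ k ihk =>
    intro n
    induction n using Nat.strong_induction_on with
    | _ n ihn =>
    intro u H ps hk hn huC huH hH hau
    -- the graph
    obtain ⟨E, hE⟩ : ∃ E : P → P → Prop, E = GrS A EX H c (XkS A EX H c k) u := ⟨_, rfl⟩
    have hxin : XINS A EX H c u ↔ (EX c u ∨ Ess E u) := by
      rw [xin_iff, hk, hE]
    -- the value at a board `v` after a reversible placement, the player behind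
    have hXv : ∀ v, rv A c u v → ¬ ahead A c v → (XkS A EX H c k v ↔ XINS A EX H c v) := by
      intro v hv hav
      have h1 := (hLVL P A hS c u v hv).1 hau hav
      unfold XINS
      rw [h1, hk]
    -- the induction hypothesis for the margin
    have hV : ∀ v, rv A c u v → v ∈ Cm → ¬ ahead A c v →
        ∀ ps', (MWs A true (insert (c, v) (insert (!c, v) H)) ps' c v ↔ XINS A EX H c v) := by
      intro v hv hvC hav ps'
      have h1 := (hLVL P A hS c u v hv).1 hau hav
      have h2 : mg A c v / 4 < k := by omega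
      rw [ihk _ h2 _ v (insert (c, v) (insert (!c, v) H)) ps' rfl rfl hvC (Set.mem_insert _ _)
        (hag _ c v hvC (hag H (!c) v hvC hH)) hav]
      refine hXLS P A hS EX (insert (c, v) (insert (!c, v) H)) H c v hav ?_ ?_
      · intro x hx _
        rw [Set.mem_insert_iff, Set.mem_insert_iff]
        constructor
        · rintro (h | h | h)
          · exact absurd (congrArg Prod.snd h) hx
          · exact absurd (congrArg Prod.snd h) hx
          · exact h
        · exact fun h => Or.inr (Or.inr h)
      · intro x hx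
        have hxv : x ≠ v := by
          rintro rfl
          split_ifs at hx <;> exact lt_irrefl _ hx
        rw [Set.mem_insert_iff, Set.mem_insert_iff]
        constructor
        · rintro (h | h | h)
          · exact absurd (congrArg Prod.snd h) hxv
          · exact absurd (congrArg Prod.snd h) hxv
          · exact h
        · exact fun h => Or.inr (Or.inr h)
    -- the induction hypothesis for the history
    have hW : ∀ v w, rv A c u v → v ∈ Cm → (!c, v) ∉ H → w ∈ Cm → (c, w) ∉ H →
        rv A c w v → A.s w = A.s u → ∀ ps',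
        (MWs A true (insert (c, w) (insert (!c, v) H)) ps' c w ↔ (EX c w ∨ Ess (del2 E u v) w)) := by
      intro v w hv hvC hvH hwC hwH hwv hsw ps'
      obtain ⟨haw, hmw⟩ := (hLVL P A hS c u v hv).2.2.2.2.2.2.1 w hau hsw
      have h2 : ((insert (c, w) (insert (!c, v) H))ᶜ).ncard < n := by
        rw [← hn]; exact ncard_lt_aux H (!c, v) (c, w) hvH
      rw [ihn _ h2 w (insert (c, w) (insert (!c, v) H)) ps' (by rw [hmw]; exact hk) rfl hwC
        (Set.mem_insert _ _) (hag _ c w hwC (hag H (!c) v hvC hH)) haw, xin_iff, hmw, hk]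
      by_cases hEw : EX c w
      · exact ⟨fun _ => Or.inl hEw, fun _ => Or.inl hEw⟩
      · rw [hGRS P A hS EX H c u v w hau huH hv hvH hwH hEw hwv k hk.symm, hE]
    rw [hxin]
    constructor
    · -- if the player wins
      intro hM
      by_contra hcon
      rw [not_or] at hcon
      obtain ⟨hEu, hEs⟩ := hcon
      rw [mw_iff] at hM
      rcases hM with ⟨_, h⟩ | ⟨_, h⟩ | ⟨v, hmv, hvH, hM⟩
      · exact hau h
      · apply h
        rw [mw_iff]
        exact Or.inl ⟨rfl, (ahead_not A c u).2 hau⟩
      · by_cases hrev : A.mv (!c) v u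
        · have hv : rv A c u v := ⟨hmv, hrev⟩
          have hvC : v ∈ Cm := hCl c u v huC hv
          apply hM
          by_cases hEv : EX (!c) v
          · obtain ⟨b'', h1, h2, h3, h4⟩ := (hEX (!c) v hvC (insert (!c, v) H)
              (hag H (!c) v hvC hH)).2 hEv
            rw [mw_iff]
            exact Or.inr (Or.inr ⟨b'', h1, h3, h4⟩)
          · by_cases hcase : ¬ ahead A c v → XINS A EX H c v
            · have hEuv : E u v := by
                rw [hE]
                refine ⟨Or.inl rfl, rfl, hv, hvH, hEv, fun hav => ?_⟩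
                exact (hXv v hv hav).2 (hcase hav)
              obtain ⟨w, hwu, hEwv, hEss⟩ := (hGEO P E u).2 hEs v hEuv
              rw [hE] at hEwv
              obtain ⟨h1, hsw, hwv, _, _, _⟩ := hEwv
              obtain ⟨hwH, hEw⟩ := h1.resolve_left hwu
              have hwC : w ∈ Cm := hCl (!c) v w hvC ⟨hwv.2, by rw [Bool.not_not]; exact hwv.1⟩
              rw [mw_iff]
              refine Or.inr (Or.inr ⟨w, hwv.2, ?_, ?_⟩)
              · rw [Bool.not_not, Set.mem_insert_iff, not_or]
                exact ⟨fun h => c_ne c (congrArg Prod.fst h), hwH⟩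
              · rw [Bool.not_not, hW v w hv hvC hvH hwC hwH hwv hsw false, not_or]
                exact ⟨hEw, hEss⟩
            · rw [Classical.not_imp] at hcase
              obtain ⟨hav, hX⟩ := hcase
              rw [mw_iff]
              refine Or.inr (Or.inl ⟨rfl, ?_⟩)
              rw [Bool.not_not, hV v hv hvC hav true]
              exact hX
        · exact hEu ((hEX c u huC H hH).1 ⟨v, hmv, hrev, hvH, hM⟩)
    · rintro hX
      by_cases hEu : EX c u
      · obtain ⟨b', h1, h2, h3, h4⟩ := (hEX c u huC H hH).2 hEu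
        rw [mw_iff]
        exact Or.inr (Or.inr ⟨b', h1, h3, h4⟩)
      · have hEs : Ess E u := hX.resolve_left hEu
        obtain ⟨v, hEuv, hall⟩ := (hGEO P E u).1 hEs
        rw [hE] at hEuv
        obtain ⟨_, _, hv, hvH, hEv, hvX⟩ := hEuv
        have hvC : v ∈ Cm := hCl c u v huC hv
        have hvX' : ¬ ahead A c v → XINS A EX H c v := fun hav => (hXv v hv hav).1 (hvX hav)
        rw [mw_iff]
        refine Or.inr (Or.inr ⟨v, hv.1, hvH, ?_⟩)
        rw [mw_iff]
        rintro (⟨h, _⟩ | ⟨_, h⟩ | ⟨w, hmw, hwH, hM⟩)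
        · exact absurd h (by decide)
        · apply h
          rw [Bool.not_not]
          by_cases hav : ahead A c v
          · rw [mw_iff]
            exact Or.inl ⟨rfl, hav⟩
          · exact (hV v hv hvC hav true).2 (hvX' hav)
        · by_cases hrev : A.mv (!(!c)) w v
          · have hwv : rv A c w v := ⟨by rw [Bool.not_not] at hrev; exact hrev, hmw⟩
            have hwC : w ∈ Cm := hCl (!c) v w hvC ⟨hmw, hrev⟩
            have hsw : A.s w = A.s u := (hLVL P A hS c u v hv).2.2.2.2.2.1 w hwv
            rw [Bool.not_not, Set.mem_insert_iff, not_or] at hwH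
            obtain ⟨_, hwH⟩ := hwH
            apply hM
            rw [Bool.not_not, hW v w hv hvC hvH hwC hwH hwv hsw false]
            by_cases hEw : EX c w
            · exact Or.inl hEw
            · refine Or.inr (hall w ?_ ?_)
              · rintro rfl
                exact hwH huH
              · rw [hE]
                exact ⟨Or.inr ⟨hwH, hEw⟩, hsw, hwv, hvH, hEv, hvX⟩
          · exact hEv ((hEX (!c) v hvC (insert (!c, v) H) (hag H (!c) v hvC hH)).1
              ⟨w, hmw, hrev, hwH, hM⟩)
  intro u H ps huC huH hH hau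
  exact main _ _ u H ps rfl rfl huC huH hH hau

end Pool.Agent.Helper24.GT
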